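import Pool.Agent.N139.WS.Stm

/-!
# Project WS (helper139), REP: an asymptotic representation (helper712)
-/

set_option autoImplicit false

namespace Pool.Agent.N712.WS

open Filter Topology
open Pool.Agent.N139.WS

/-- weighted permutation operators -/
noncomputable def op {m : ℕ} (θ : Fin m → ℂ) (π : Fin m → Fin m) : MM m :=
  LinearMap.toContinuousLinearMap
    { toFun := fun f => WithLp.toLp 2 (fun i => θ i * f (π i))
      map_add' := by
        intro f g
        ext i
        simp [mul_add]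
      map_smul' := by
        intro c f
        ext i
        simp
        ring }

lemma op_apply {m : ℕ} (θ : Fin m → ℂ) (π : Fin m → Fin m) (f : EuclideanSpace ℂ (Fin m))
    (i : Fin m) : op θ π f i = θ i * f (π i) := rfl

lemma op_mul {m : ℕ} (θ θ' : Fin m → ℂ) (π π' : Fin m → Fin m) :
    op θ π * op θ' π' = op (fun i => θ i * θ' (π i)) (fun i => π' (π i)) := by
  refine ContinuousLinearMap.ext fun f => ?_
  ext i
  show θ i * (θ' (π i) * f (π' (π i))) = _
  rw [op_apply, mul_assoc]

lemma op_star {m : ℕ} (θ : Fin m → ℂ) (π : Fin m → Fin m) (hπ : ∀ i, π (π i) = i)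
    (hθ : ∀ i, (starRingEnd ℂ) (θ i) = θ i) : star (op θ π) = op (fun i => θ (π i)) π := by
  rw [ContinuousLinearMap.star_eq_adjoint]
  symm
  rw [ContinuousLinearMap.eq_adjoint_iff]
  intro x y
  rw [PiLp.inner_apply, PiLp.inner_apply]
  have hi : Function.Involutive π := hπ
  rw [← Equiv.sum_comp (hi.toPerm π) (fun i => inner ℂ (x i) (op θ π y i))]
  refine Finset.sum_congr rfl fun i _ => ?_
  show inner ℂ (op (fun i => θ (π i)) π x i) (y i) = inner ℂ (x (π i)) (op θ π y (π i))
  rw [op_apply, op_apply, hπ]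
  simp only [RCLike.inner_apply, map_mul, hθ]
  ring

lemma op_one {m : ℕ} : op (fun _ : Fin m => (1 : ℂ)) (fun i => i) = 1 := by
  refine ContinuousLinearMap.ext fun f => ?_
  ext i
  rw [op_apply, one_mul]
  rfl

lemma op_neg {m : ℕ} : op (fun _ : Fin m => (-1 : ℂ)) (fun i => i) = -1 := by
  refine ContinuousLinearMap.ext fun f => ?_
  ext i
  rw [op_apply, neg_one_mul]
  rfl

/-- the sign character -/
noncomputable def sgn (a : ZMod 2) : ℂ := if a = 0 then 1 else -1

lemma sgn_zero : sgn 0 = 1 := by simp [sgn]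

lemma sgn_one : sgn 1 = -1 := by
  unfold sgn
  rw [if_neg (by decide)]

lemma sgn_cases (a : ZMod 2) : a = 0 ∨ a = 1 := by
  revert a
  decide

lemma sgn_add (a b : ZMod 2) : sgn (a + b) = sgn a * sgn b := by
  rcases sgn_cases a with rfl | rfl <;> rcases sgn_cases b with rfl | rfl
  · simp [sgn_zero]
  · simp [sgn_zero]
  · simp [sgn_zero]
  · have h : (1 + 1 : ZMod 2) = 0 := by decide
    rw [h, sgn_zero, sgn_one]
    norm_num

lemma sgn_conj (a : ZMod 2) : (starRingEnd ℂ) (sgn a) = sgn a := by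
  rcases sgn_cases a with rfl | rfl
  · rw [sgn_zero, map_one]
  · rw [sgn_one, map_neg, map_one]

lemma sgn_sq (a : ZMod 2) : sgn a * sgn a = 1 := by
  rw [← sgn_add, CharTwo.add_self_eq_zero, sgn_zero]

/-- bits -/
abbrev Q (n : ℕ) : Type := Fin n → ZMod 2

/-- the dimension -/
noncomputable def kk (n : ℕ) : ℕ := Fintype.card (Q n)

/-- the enumeration -/
noncomputable def en (n : ℕ) : Fin (kk n) ≃ Q n := (Fintype.equivFin (Q n)).symm

/-- truncation -/
noncomputable def tr (n : ℕ) (x : VV) : Q n := fun j => x j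

/-- inner product -/
def ip {n : ℕ} (a b : Q n) : ZMod 2 := ∑ j, a j * b j

lemma ip_add_left {n : ℕ} (a b c : Q n) : ip (a + b) c = ip a c + ip b c := by
  unfold ip
  rw [← Finset.sum_add_distrib]
  exact Finset.sum_congr rfl fun j _ => add_mul _ _ _

lemma ip_add_right {n : ℕ} (a b c : Q n) : ip a (b + c) = ip a b + ip a c := by
  unfold ip
  rw [← Finset.sum_add_distrib]
  exact Finset.sum_congr rfl fun j _ => mul_add _ _ _

lemma ip_zero_right {n : ℕ} (a : Q n) : ip a 0 = 0 := by
  unfold ip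
  exact Finset.sum_eq_zero fun j _ => mul_zero _

/-- the phases -/
noncomputable def th (n : ℕ) (g : WG) (i : Fin (kk n)) : ℂ :=
  sgn (sm g.z + ip (en n i) (tr n g.y))

/-- the shifts -/
noncomputable def sh (n : ℕ) (g : WG) (i : Fin (kk n)) : Fin (kk n) :=
  (en n).symm (en n i + tr n g.x)

/-- the asymptotic representation -/
noncomputable def uu (n : ℕ) (g : WG) : MM (kk n) := op (th n g) (sh n g)

lemma tr_add (n : ℕ) (x y : VV) : tr n (x + y) = tr n x + tr n y := rfl

lemma en_sh (n : ℕ) (g : WG) (i : Fin (kk n)) : en n (sh n g i) = en n i + tr n g.x := by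
  unfold sh
  rw [Equiv.apply_symm_apply]

lemma add_self {n : ℕ} (a : Q n) : a + a = 0 := by
  funext j
  exact CharTwo.add_self_eq_zero _

lemma sh_sh (n : ℕ) (g : WG) (i : Fin (kk n)) : sh n g (sh n g i) = i := by
  apply (en n).injective
  rw [en_sh, en_sh, add_assoc, add_self, add_zero]

lemma sm_mul {n : ℕ} (x y : VV) (hx : ∀ i ∈ x.support, i < n) :
    sm (x * y) = ip (tr n x) (tr n y) := by
  have h1 : sm (x * y) = ∑ i ∈ Finset.range n, (x * y) i := by
    unfold sm
    rw [Finsupp.liftAddHom_apply, Finsupp.sum]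
    refine Finset.sum_subset ?_ ?_
    · intro i hi
      refine Finset.mem_range.2 (hx i ?_)
      rw [Finsupp.mem_support_iff] at hi ⊢
      intro h
      apply hi
      rw [Finsupp.mul_apply, h, zero_mul]
    · intro i _ hi
      rw [Finsupp.notMem_support_iff] at hi
      rw [hi]
      rfl
  rw [h1, ← Fin.sum_univ_eq_sum_range]
  unfold ip tr
  exact Finset.sum_congr rfl fun i _ => Finsupp.mul_apply

lemma bound (x : VV) : ∃ N : ℕ, ∀ n, N ≤ n → ∀ i ∈ x.support, i < n :=
  ⟨x.support.sup id + 1, fun n hn i hi => by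
    have : i ≤ x.support.sup id := Finset.le_sup (f := id) hi
    omega⟩

lemma sm_smul (e : ZMod 2) (b : VV) : sm (e • TT b) = 0 := by
  rcases sgn_cases e with rfl | rfl
  · rw [zero_smul, map_zero]
  · rw [one_smul, sm_TT]

lemma uu_mul {n : ℕ} (g h : WG) (hn : ∀ i ∈ g.x.support, i < n) :
    uu n (g * h) = uu n g * uu n h := by
  unfold uu
  rw [op_mul]
  congr 1
  · funext i
    unfold th
    rw [en_sh, ← sgn_add, WG.mul_z, WG.mul_y, map_add, map_add, map_add, sm_smul,
      sm_mul g.x h.y hn, tr_add, ip_add_right, ip_add_left]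
    congr 1
    ring
  · funext i
    apply (en n).injective
    rw [en_sh, en_sh, en_sh, WG.mul_x, tr_add, add_assoc]

lemma neg_tr {n : ℕ} (x : VV) : tr n (-x) = tr n x := by
  funext j
  show -(x j) = x j
  exact CharTwo.neg_eq (x j)

lemma uu_star {n : ℕ} (g : WG) (hn : ∀ i ∈ g.x.support, i < n) :
    uu n g⁻¹ = star (uu n g) := by
  unfold uu
  rw [op_star (th n g) _ (sh_sh n g) (fun i => sgn_conj _)]
  congr 1
  · funext i
    unfold th
    rw [en_sh, WG.inv_z, WG.inv_y, map_add, map_add, map_neg, sm_smul,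
      sm_mul g.x g.y hn, neg_tr, ip_add_left]
    congr 1
    have : -(sm g.z) = sm g.z := CharTwo.neg_eq (sm g.z)
    rw [this]
    ring
  · funext i
    apply (en n).injective
    rw [en_sh, en_sh, WG.inv_x, neg_tr]

lemma uu_norm (n : ℕ) (g : WG) : ‖uu n g‖ ≤ 1 := by
  have h1 : star (uu n g) * uu n g = 1 := by
    unfold uu
    rw [op_star (th n g) _ (sh_sh n g) (fun i => sgn_conj _), op_mul, ← op_one]
    congr 1
    · funext i
      exact sgn_sq _
    · funext i
      exact sh_sh n g i
  have h2 : ‖uu n g‖ * ‖uu n g‖ ≤ 1 := by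
    rw [← CStarRing.norm_star_mul_self, h1]
    exact ContinuousLinearMap.norm_id_le
  nlinarith [norm_nonneg (uu n g)]

lemma uu_triv (n : ℕ) (g : WG) (hx : g.x = 0) (hy : g.y = 0) (hz : g.z = 0) : uu n g = 1 := by
  unfold uu
  rw [← op_one]
  congr 1
  · funext i
    unfold th
    rw [hz, hy, map_zero]
    have : tr n 0 = 0 := rfl
    rw [this, ip_zero_right, add_zero, sgn_zero]
  · funext i
    apply (en n).injective
    rw [en_sh, hx]
    have : tr n 0 = 0 := rfl
    rw [this, add_zero]

theorem t_REP : S_REP := by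
  refine ⟨kk, uu, ⟨fun g => ⟨1, fun n => uu_norm n g⟩, fun g h => ?_, fun g => ?_⟩, fun n => ?_⟩
  · obtain ⟨N, hN⟩ := bound g.x
    refine tendsto_const_nhds.congr' ?_
    filter_upwards [eventually_ge_atTop N] with n hn
    rw [uu_mul g h (hN n hn), sub_self, norm_zero]
  · obtain ⟨N, hN⟩ := bound g.x
    refine tendsto_const_nhds.congr' ?_
    filter_upwards [eventually_ge_atTop N] with n hn
    rw [uu_star g (hN n hn), sub_self, norm_zero]
  · refine ⟨Fintype.card_pos, uu_triv n 1 rfl rfl rfl, uu_triv n cc rfl rfl rfl, ?_⟩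
    unfold uu
    rw [← op_neg]
    congr 1
    · funext i
      unfold th
      have h1 : (zz 0).z = Finsupp.single 0 1 := rfl
      have h2 : (zz 0).y = 0 := rfl
      rw [h1, h2, sm_single]
      have : tr n 0 = 0 := rfl
      rw [this, ip_zero_right, add_zero, sgn_one]
    · funext i
      apply (en n).injective
      rw [en_sh]
      have h2 : (zz 0).x = 0 := rfl
      rw [h2]
      have : tr n 0 = 0 := rfl
      rw [this, add_zero]

end Pool.Agent.N712.WS
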